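import Mathlib
import Pool.Agent.MP_e0ec03_al.Types

namespace Pool.Agent.Results.MP_e0ec03_al.AlgebraicRate

open Pool.Agent.MP_e0ec03_al Filter Topology

theorem result (p q : ℕ) (hp : 1 < p) (hpq : p < q) (hd : p ∣ q) (hq : Odd q) :
    ∃ ω : ℝ, IsAlgebraic ℚ ω ∧
      Tendsto (fun n : ℕ => ((ball p q n).ncard : ℝ) ^ (1 / (n : ℝ))) atTop (𝓝 ω) := by
  obtain ⟨m, rfl⟩ := hd
  obtain ⟨hp', hm⟩ := Nat.odd_mul.1 hq
  have hm2 : 2 ≤ m := by
    by_contra h
    have : m = 0 ∨ m = 1 := by omega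
    rcases this with rfl | rfl <;> simp at hpq
  have : NeZero p := ⟨by omega⟩
  have : NeZero (p * m) := ⟨by omega⟩
  obtain ⟨w, h1, h2, -, -, h3, h4⟩ := growth_core (p := p) (q := p * m) (dvd_mul_right p m)
  refine ⟨w, ?_, h2⟩
  rcases h1.eq_or_lt with rfl | h5
  · exact isAlgebraic_one
  have hw : 0 < w := by linarith
  have h6 : IsAlgebraic ℚ w⁻¹ := by
    refine radius_algebraic (cnt p (p * m)) (inv_pos.2 hw) (fun x hx hx' => h3 x hx ?_)
      (fun x hx hs => ?_) (cnt_algebraic hp' hm hm2)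
    · rwa [inv_eq_one_div, lt_div_iff₀ hw] at hx'
    · have h7 : w⁻¹ < min x 1 := lt_min hx (inv_lt_one_of_one_lt₀ h5)
      have h8 : 0 ≤ min x 1 := (inv_pos.2 hw).le.trans h7.le
      have h9 := h4 (min x 1) h8 (min_le_right _ _) (Summable.of_nonneg_of_le
        (fun n => by positivity) (fun n => by gcongr; exact min_le_left _ _) hs)
      rw [inv_eq_one_div, div_lt_iff₀ hw] at h7
      linarith
  simpa using h6.inv

end Pool.Agent.Results.MP_e0ec03_al.AlgebraicRate
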