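import Mathlib
import Pool.Agent.MP_e0ec03_al.asy.All

namespace Pool.Agent.Results.MP_e0ec03_al.AsymptoticRate

open Pool.Agent.MP_e0ec03_al Pool.Agent.MP_e0ec03_al.Asy Filter Topology

theorem result :
    ∀ ε : ℝ, 0 < ε → ∃ p0 : ℕ, ∀ p q : ℕ, p0 ≤ p → p < q → ∃ ω : ℝ,
      Tendsto (fun n : ℕ => ((ball p q n).ncard : ℝ) ^ (1 / (n : ℝ))) atTop (𝓝 ω) ∧
      |(3 - ω) / (lead p q * p / 3 ^ p) - 1| ≤ ε := by
  intro ε hε
  obtain ⟨p0, h⟩ := asy_diff (ε / 5) (by positivity)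
  refine ⟨p0 + 1, fun p q hp hpq => ?_⟩
  obtain ⟨ω, h1, h2⟩ := h p q (by omega) hpq
  refine ⟨ω, h1, ?_⟩
  have hl := (mtail.1 p q (by omega) hpq).1
  have hl0 : 0 < lead p q := by linarith
  have hp0 : (0 : ℝ) < p := by exact_mod_cast (by omega : 0 < p)
  have e : (3 - ω) / (lead p q * p / 3 ^ p) - 1 =
      ((3 - ω) * 3 ^ p / p - lead p q) / lead p q := by
    field_simp
  rw [e, abs_div, abs_of_pos hl0, div_le_iff₀ hl0]
  nlinarith

end Pool.Agent.Results.MP_e0ec03_al.AsymptoticRate
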