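import Pool.Agent.MP_e0ec03_al.FEMain

namespace Pool.Agent.Results.MP_e0ec03_al.DivisibleCase

open Pool.Agent.MP_e0ec03_al Filter Topology

theorem result (p q : ℕ) (hp : 1 < p) (hpq : p < q) (hd : p ∣ q) :
    ∃ A B K : PowerSeries (MvPolynomial ℤ ℤ),
      (∀ A' B' K', System p (q / p) A' B' K' ↔ A' = A ∧ B' = B ∧ K' = K) ∧
      ∀ c : ℕ → ℤ, (∀ n, c n = ∑ i ∈ Finset.range (n + 1),
          MvPolynomial.eval (fun _ => 1) (PowerSeries.coeff i K)) →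
        ∃ ω : ℝ, Tendsto (fun n : ℕ => ((ball p q n).ncard : ℝ) ^ (1 / (n : ℝ))) atTop (𝓝 ω) ∧
          Tendsto (fun n : ℕ => (c n : ℝ) ^ (1 / (n : ℝ))) atTop (𝓝 ω) ∧
          ∀ n : ℕ, (c n : ℝ) ≤ 2 * (n + 1) * ω ^ (n + 3) ∧
            ω ^ n ≤ 8 * (n + 1) ^ 4 * (c (n + 3) : ℝ) := by
  obtain ⟨m, rfl⟩ := hd
  have : NeZero p := ⟨by omega⟩
  have : NeZero m := ⟨by rintro rfl; omega⟩
  rw [Nat.mul_div_cancel_left m (by omega : 0 < p)]
  have hs := Core.system_lim (p := p) (m := m)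
  refine ⟨_, _, _, fun A' B' K' => ⟨fun h => system_unique p m h hs, ?_⟩, fun c hc => ?_⟩
  · rintro ⟨rfl, rfl, rfl⟩
    exact hs
  have h0 : ∀ n, (c n : ℝ) = (Gam p (p * m) n).ncard := fun n => by
    rw [hc, gam_eq (dvd_mul_right p m)]
    simp only [Core.eval_lim]
    push_cast
    rfl
  obtain ⟨w, h1, h2, h3, -⟩ :=
    growth_exists (fun n => (ball p (p * m) n).ncard) ball_pos ball_submul
  simp only [h0]
  refine ⟨w, h2, gam_tendsto hp hpq.le h1 h2 h3, fun n => ⟨gam_le_pow hp (by omega) h2 n, ?_⟩⟩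
  refine (h3 n).trans ?_
  exact_mod_cast ball_le_gam' hp hpq.le n

end Pool.Agent.Results.MP_e0ec03_al.DivisibleCase
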