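import Pool.Agent.MP_e0ec03_al.lim.Main

namespace Pool.Agent.Results.MP_e0ec03_al.LimitRate

open Pool.Agent.MP_e0ec03_al Pool.Agent.MP_e0ec03_al.Lim Filter Topology

theorem result (p : ℕ) (hp : 1 < p) :
    ∃ ζ : ℝ, 0 < ζ ∧ ζ < 1 / 2 ∧ (∀ z : ℝ, 0 < z → z < 1 / 2 → (eqn p z = 2 ↔ z = ζ)) ∧
      (p = 2 → 1 / ζ = 1 + √3) ∧
      ∀ q : ℕ, p < q → ∃ ω : ℝ,
        Tendsto (fun n : ℕ => ((ball p q n).ncard : ℝ) ^ (1 / (n : ℝ))) atTop (𝓝 ω) ∧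
        1 / ζ - 1625 * (47 / 50) ^ q ≤ ω ∧ (p ∣ q → ω ≤ 1 / ζ) := by
  obtain ⟨ζ, h1, h2, h3, h4, h5⟩ := root (p := p) (by omega)
  refine ⟨ζ, by linarith, by linarith, h4, ?_, fun q hq => ?_⟩
  · rintro rfl
    have h : √3 ^ 2 = 3 := Real.sq_sqrt (by norm_num)
    have i1 : 1 < √3 := by rw [Real.lt_sqrt (by norm_num)]; norm_num
    have i2 : √3 < 2 := by rw [Real.sqrt_lt' (by norm_num)]; norm_num
    rw [← (h4 _ (by linarith) (by linarith)).1 eqn_two, div_eq_iff (by linarith)]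
    linear_combination (-1 / 2) * h
  · have : NeZero p := ⟨by omega⟩
    have : NeZero q := ⟨by omega⟩
    exact rate hp hq h1 h2 h3 h5

end Pool.Agent.Results.MP_e0ec03_al.LimitRate
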